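import Pool.Agent.helper55.GL.Spec

/-!
# LC4: a lower bound for the extremal number of the four cycle
-/

set_option autoImplicit false

namespace Pool.Agent.GL

open SimpleGraph

/-- No cycle of length four. -/
def LC4_F {V : Type} (G : SimpleGraph V) : Prop :=
  ∀ a a' b b', a ≠ a' → b ≠ b' → G.Adj a b → G.Adj a b' → G.Adj a' b → G.Adj a' b' → False

theorem LC4_map {V W : Type} (G : SimpleGraph V) (f : V ↪ W) (h : LC4_F G) :
    LC4_F (G.map f) := by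
  intro a a' b b' hab hbb h1 h2 h3 h4
  rw [map_adj] at h1 h2 h3 h4
  obtain ⟨u1, v1, g1, rfl, rfl⟩ := h1
  obtain ⟨u2, v2, g2, hu2, rfl⟩ := h2
  obtain ⟨u3, v3, g3, rfl, hv3⟩ := h3
  obtain ⟨u4, v4, g4, hu4, hv4⟩ := h4
  rw [f.apply_eq_iff_eq] at hu2 hv3 hu4 hv4
  subst hu2 hv3 hu4 hv4
  exact h _ _ _ _ (fun h => hab (congrArg f h)) (fun h => hbb (congrArg f h)) g1 g2 g3 g4

theorem LC4_free {V : Type} (G : SimpleGraph V) (h : LC4_F G) :
    (completeBipartiteGraph (Fin 2) (Fin 2)).Free G := by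
  rintro ⟨φ⟩
  have hinj := φ.injective
  have hadj : ∀ i j : Fin 2, G.Adj (φ (Sum.inl i)) (φ (Sum.inr j)) := by
    intro i j
    exact φ.toHom.map_adj (by simp)
  refine h (φ (Sum.inl 0)) (φ (Sum.inl 1)) (φ (Sum.inr 0)) (φ (Sum.inr 1)) ?_ ?_ (hadj _ _)
    (hadj _ _) (hadj _ _) (hadj _ _)
  · intro he
    have := hinj he
    simp at this
  · intro he
    have := hinj he
    simp at this

theorem LC4_low {V : Type} [Fintype V] (G : SimpleGraph V) [DecidableRel G.Adj] (h : LC4_F G)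
    (n : ℕ) (hn : Fintype.card V ≤ n) :
    G.edgeFinset.card ≤ ex n (completeBipartiteGraph (Fin 2) (Fin 2)) := by
  classical
  obtain ⟨f⟩ : Nonempty (V ↪ Fin n) := by
    rw [Function.Embedding.nonempty_iff_card_le, Fintype.card_fin]
    exact hn
  have h1 := card_edgeFinset_le_extremalNumber (LC4_free (G.map f) (LC4_map G f h))
  rw [card_edgeFinset_map, Fintype.card_fin] at h1
  exact h1

/-- The incidence relation of the affine plane. -/
def LC4_R (p : ℕ) (a b : ZMod p × ZMod p) : Prop := b.2 = a.1 * b.1 + a.2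

theorem LC4_inc (p : ℕ) [Fact p.Prime] (a a' b b' : ZMod p × ZMod p) (ha : a ≠ a') (hb : b ≠ b')
    (h1 : LC4_R p a b) (h2 : LC4_R p a b') (h3 : LC4_R p a' b) (h4 : LC4_R p a' b') : False := by
  unfold LC4_R at h1 h2 h3 h4
  have h5 : (a.1 - a'.1) * (b.1 - b'.1) = 0 := by
    linear_combination -h1 + h2 + h3 - h4
  rcases mul_eq_zero.1 h5 with h6 | h6
  · rw [sub_eq_zero] at h6
    apply ha
    refine Prod.ext h6 ?_
    rw [h6] at h1
    linear_combination -h1 + h3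
  · rw [sub_eq_zero] at h6
    apply hb
    refine Prod.ext h6 ?_
    rw [h1, h2, h6]

theorem LC4_adj (p : ℕ) (a b : (ZMod p × ZMod p) ⊕ (ZMod p × ZMod p)) (h : (Gr (LC4_R p)).Adj a b) :
    (∃ x y, a = Sum.inl x ∧ b = Sum.inr y ∧ LC4_R p x y) ∨
      (∃ x y, b = Sum.inl x ∧ a = Sum.inr y ∧ LC4_R p x y) := by
  rw [Gr, fromRel_adj] at h
  exact h.2

theorem LC4_pl (p : ℕ) [Fact p.Prime] : LC4_F (Gr (LC4_R p)) := by
  intro a a' b b' ha hb h1 h2 h3 h4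
  rcases LC4_adj p _ _ h1 with ⟨x, y, rfl, rfl, g1⟩ | ⟨x, y, rfl, rfl, g1⟩
  · rcases LC4_adj p _ _ h2 with ⟨x2, y2, hx2, rfl, g2⟩ | ⟨x2, y2, rfl, hx2, g2⟩
    · rcases LC4_adj p _ _ h3 with ⟨x3, y3, rfl, hx3, g3⟩ | ⟨x3, y3, hx3, rfl, g3⟩
      · rcases LC4_adj p _ _ h4 with ⟨x4, y4, hx4, hy4, g4⟩ | ⟨x4, y4, hx4, hy4, g4⟩
        · rw [Sum.inl.injEq] at hx2 hx4
          rw [Sum.inr.injEq] at hx3 hy4
          subst hx2 hx3 hx4 hy4
          exact LC4_inc p _ _ _ _ (fun h => ha (congrArg _ h)) (fun h => hb (congrArg _ h))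
            g1 g2 g3 g4
        · cases hx4
      · cases hx3
    · cases hx2
  · rcases LC4_adj p _ _ h2 with ⟨x2, y2, hx2, rfl, g2⟩ | ⟨x2, y2, rfl, hx2, g2⟩
    · cases hx2
    · rcases LC4_adj p _ _ h3 with ⟨x3, y3, rfl, hx3, g3⟩ | ⟨x3, y3, hx3, rfl, g3⟩
      · cases hx3
      · rcases LC4_adj p _ _ h4 with ⟨x4, y4, hx4, hy4, g4⟩ | ⟨x4, y4, hx4, hy4, g4⟩
        · cases hx4
        · rw [Sum.inr.injEq] at hx2 hy4
          rw [Sum.inl.injEq] at hx3 hx4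
          subst hx2 hx3 hx4 hy4
          exact LC4_inc p _ _ _ _ (fun h => hb (congrArg _ h)) (fun h => ha (congrArg _ h))
            g1 g3 g2 g4

theorem LC4_edg (p : ℕ) [Fact p.Prime] (n : ℕ) (hn : 2 * p ^ 2 ≤ n) :
    p ^ 3 ≤ ex n (completeBipartiteGraph (Fin 2) (Fin 2)) := by
  classical
  refine le_trans ?_ (LC4_low (Gr (LC4_R p)) (LC4_pl p) n ?_)
  · have h1 : Fintype.card (ZMod p × ZMod p × ZMod p) = p ^ 3 := by
      rw [Fintype.card_prod, Fintype.card_prod, ZMod.card]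
      ring
    rw [← h1, ← Finset.card_univ]
    refine Finset.card_le_card_of_injOn
      (fun t => s(Sum.inl (t.1, t.2.1), Sum.inr (t.2.2, t.1 * t.2.2 + t.2.1))) ?_ ?_
    · intro t _
      rw [Finset.mem_coe, mem_edgeFinset, mem_edgeSet, Gr, fromRel_adj]
      exact ⟨by simp, Or.inl ⟨_, _, rfl, rfl, rfl⟩⟩
    · rintro ⟨m, k, x⟩ _ ⟨m', k', x'⟩ _ h
      simp only [Sym2.eq_iff, Sum.inl.injEq, Sum.inr.injEq, Prod.mk.injEq, reduceCtorEq, and_self,
        or_false] at h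
      obtain ⟨⟨h1, h2⟩, h3, -⟩ := h
      rw [h1, h2, h3]
  · rw [Fintype.card_sum, Fintype.card_prod, ZMod.card]
    nlinarith

theorem LC4_one (n : ℕ) (hn : 2 ≤ n) : 1 ≤ ex n (completeBipartiteGraph (Fin 2) (Fin 2)) := by
  classical
  refine le_trans ?_ (LC4_low (⊤ : SimpleGraph (Fin 2)) ?_ n ?_)
  · decide
  · intro a a' b b' ha hb h1 h2 h3 h4
    rw [top_adj] at h1 h2 h3 h4
    omega
  · rw [Fintype.card_fin]
    exact hn

theorem LC4 : LC4_stmt := by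
  refine ⟨512, fun n hn => ?_⟩
  set E := ex n (completeBipartiteGraph (Fin 2) (Fin 2)) with hE
  rcases Nat.lt_or_ge n 8 with h8 | h8
  · have h1 := LC4_one n hn
    have h2 : n ^ 3 ≤ 8 ^ 3 := Nat.pow_le_pow_left h8.le 3
    have h3 : 1 ≤ E ^ 2 := Nat.one_le_pow _ _ h1
    omega
  · set k := Nat.sqrt (n / 8) with hk
    have hk0 : k ≠ 0 := by
      have : 0 < Nat.sqrt (n / 8) := Nat.sqrt_pos.2 (by omega)
      omega
    obtain ⟨p, hp, hkp, hp2⟩ := Nat.exists_prime_lt_and_le_two_mul k hk0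
    have : Fact p.Prime := ⟨hp⟩
    have h1 : k * k ≤ n / 8 := Nat.sqrt_le (n / 8)
    have h2 : n / 8 < (k + 1) * (k + 1) := Nat.lt_succ_sqrt (n / 8)
    have h3 : 2 * p ^ 2 ≤ n := by
      have : p * p ≤ (2 * k) * (2 * k) := Nat.mul_le_mul hp2 hp2
      have : 8 * (k * k) ≤ n := by omega
      nlinarith
    have h4 : n ≤ 8 * p ^ 2 := by
      have : (k + 1) * (k + 1) ≤ p * p := Nat.mul_le_mul hkp hkp
      have : n < 8 * ((k + 1) * (k + 1)) := by omega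
      nlinarith
    have h5 := LC4_edg p n h3
    calc n ^ 3 ≤ (8 * p ^ 2) ^ 3 := Nat.pow_le_pow_left h4 3
      _ = 512 * (p ^ 3) ^ 2 := by ring
      _ ≤ 512 * E ^ 2 := Nat.mul_le_mul_left _ (Nat.pow_le_pow_left h5 2)

end Pool.Agent.GL
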